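import Pool.Agent.helper96.DP.SpecD
import Pool.Agent.helper96.DP.Basic

/-!
# Project dp, module CG: geometry of the square circle
-/

namespace DP

theorem CG_bd {x u : V} {n : ℕ} (hu : u ∈ bd x n) :
    ((u.1 - x.1 ≤ n ∧ x.1 - u.1 ≤ n) ∧ (u.2 - x.2 ≤ n ∧ x.2 - u.2 ≤ n)) ∧
      (u.1 = x.1 + n ∨ u.1 = x.1 - n ∨ u.2 = x.2 + n ∨ u.2 = x.2 - n) := by
  simp only [bd, sd, Set.mem_ofPred_eq] at hu
  omega

theorem CG_bd' {x u : V} {n : ℕ} (h : ((u.1 - x.1 ≤ n ∧ x.1 - u.1 ≤ n) ∧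
    (u.2 - x.2 ≤ n ∧ x.2 - u.2 ≤ n)) ∧
      (u.1 = x.1 + n ∨ u.1 = x.1 - n ∨ u.2 = x.2 + n ∨ u.2 = x.2 - n)) : u ∈ bd x n := by
  simp only [bd, sd, Set.mem_ofPred_eq]
  omega

/-- The four sides of the square circle. -/
theorem CG_pos {x u : V} {n : ℕ} (hn : 1 ≤ n) (hu : u ∈ bd x n) :
    (u.1 - x.1 = n ∧ -(n : ℤ) < u.2 - x.2 ∧ u.2 - x.2 ≤ n ∧ pos x n u = n + (u.2 - x.2)) ∨
    (u.2 - x.2 = n ∧ -(n : ℤ) ≤ u.1 - x.1 ∧ u.1 - x.1 < n ∧ pos x n u = 3 * n - (u.1 - x.1)) ∨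
    (u.1 - x.1 = -(n : ℤ) ∧ -(n : ℤ) ≤ u.2 - x.2 ∧ u.2 - x.2 < n ∧
      pos x n u = 5 * n - (u.2 - x.2)) ∨
    (u.2 - x.2 = -(n : ℤ) ∧ -(n : ℤ) < u.1 - x.1 ∧ u.1 - x.1 ≤ n ∧
      pos x n u = 7 * n + (u.1 - x.1)) := by
  have h := CG_bd hu
  unfold pos
  split_ifs with h1 h2 h3 <;> omega

theorem CG1 : CG1_stmt := by
  intro x n hn
  refine ⟨fun u hu => ?_, fun u hu v hv h => ?_, fun p hp1 hp2 => ?_⟩
  · have := CG_pos hn hu
    omega
  · have h1 := CG_pos hn hu
    have h2 := CG_pos hn hv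
    apply Prod.ext <;> omega
  · by_cases h1 : p ≤ 2 * n
    · refine ⟨(x.1 + n, x.2 + (p - n)), CG_bd' ?_, ?_⟩
      · dsimp only
        omega
      · unfold pos
        dsimp only
        split_ifs <;> omega
    by_cases h2 : p ≤ 4 * n
    · refine ⟨(x.1 + (3 * n - p), x.2 + n), CG_bd' ?_, ?_⟩
      · dsimp only
        omega
      · unfold pos
        dsimp only
        split_ifs <;> omega
    by_cases h3 : p ≤ 6 * n
    · refine ⟨(x.1 - n, x.2 + (5 * n - p)), CG_bd' ?_, ?_⟩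
      · dsimp only
        omega
      · unfold pos
        dsimp only
        split_ifs <;> omega
    · refine ⟨(x.1 + (p - 7 * n), x.2 - n), CG_bd' ?_, ?_⟩
      · dsimp only
        omega
      · unfold pos
        dsimp only
        split_ifs <;> omega

theorem CG_sd (u v : V) :
    (u.1 - v.1 ≤ sd u v ∧ v.1 - u.1 ≤ sd u v ∧ u.2 - v.2 ≤ sd u v ∧ v.2 - u.2 ≤ sd u v) ∧
      ((sd u v : ℤ) = u.1 - v.1 ∨ (sd u v : ℤ) = v.1 - u.1 ∨ (sd u v : ℤ) = u.2 - v.2 ∨
        (sd u v : ℤ) = v.2 - u.2) := by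
  unfold sd
  omega

theorem CG_key {x u v : V} {n : ℕ} (hn : 1 ≤ n) (hu : u ∈ bd x n) (hv : v ∈ bd x n)
    (h : pos x n v ≤ pos x n u) :
    (sd u v : ℤ) ≤ pos x n u - pos x n v ∧ (sd u v : ℤ) ≤ 8 * n - (pos x n u - pos x n v) ∧
      (pos x n u - pos x n v ≤ 2 * (sd u v : ℤ) ∨
        8 * n - (pos x n u - pos x n v) ≤ 2 * (sd u v : ℤ)) := by
  have h1 := CG_pos hn hu
  have h2 := CG_pos hn hv
  have h3 := CG_sd u v
  generalize (sd u v : ℤ) = s at h3 ⊢
  generalize pos x n u = p at h1 h ⊢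
  generalize pos x n v = q at h2 h ⊢
  obtain ⟨h3, h4⟩ := h3
  rcases h1 with h1 | h1 | h1 | h1 <;> rcases h2 with h2 | h2 | h2 | h2 <;>
    rcases h4 with h4 | h4 | h4 | h4 <;> refine ⟨?_, ?_, ?_⟩ <;> omega

theorem CG2 : CG2_stmt := by
  intro x n hn u hu v hv
  rcases le_total (pos x n v) (pos x n u) with h | h
  · have h1 := CG_key hn hu hv h
    rw [abs_of_nonneg (by omega)]
    omega
  · have h1 := CG_key hn hv hu h
    rw [sd_comm v u] at h1
    rw [abs_of_nonpos (by omega)]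
    omega

theorem CG3 : CG3_stmt := by
  intro x n a b hn h
  obtain ⟨ha, hb, h⟩ := h
  have h1 := CG_pos hn ha
  have h2 := CG_pos hn hb
  have key : sd a b = 1 ∧ (a.1 = b.1 ∨ a.2 = b.2) := by
    unfold sd
    rcases h with h | h <;> rcases h1 with h1 | h1 | h1 | h1 <;>
      rcases h2 with h2 | h2 | h2 | h2 <;> omega
  have hadj : Adj a b := ⟨key.1, key.2.elim Or.inl fun h => Or.inr (Or.inl h)⟩
  exact ⟨hadj, hadj.ne⟩

theorem CG4 : CG4_stmt := by
  intro x n hn u hu v hv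
  have h0 := (CG1 x n hn).1
  have h2 := CG2 x n hn
  have hu0 := h0 u hu
  have hv0 := h0 v hv
  have h3 := (h2 u hu v hv).2.2
  rw [min_le_iff] at h3
  rcases le_total (pos x n u) (pos x n v) with h | h
  · rw [abs_of_nonpos (by omega)] at h3
    rcases h3 with h3 | h3
    · left
      rintro w ⟨-, -, hw, h4⟩
      rw [if_pos h] at h4
      have h5 := (h2 u hu w hw).1
      have h6 := (h2 v hv w hw).1
      rw [abs_of_nonpos (by omega)] at h5
      rw [abs_of_nonneg (by omega)] at h6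
      omega
    · by_cases heq : pos x n v ≤ pos x n u
      · left
        rintro w ⟨-, -, hw, h4⟩
        rw [if_pos h] at h4
        have h5 := (h2 u hu w hw).1
        have h6 := (h2 v hv w hw).1
        rw [abs_of_nonpos (by omega)] at h5
        rw [abs_of_nonneg (by omega)] at h6
        omega
      right
      rintro w ⟨-, -, hw, h4⟩
      rw [if_neg heq] at h4
      have hw0 := h0 w hw
      have h5 := h2 u hu w hw
      have h6 := h2 v hv w hw
      rcases h4 with h4 | h4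
      · rw [abs_of_nonpos (by omega)] at h5 h6
        omega
      · rw [abs_of_nonneg (by omega)] at h5 h6
        omega
  · rw [abs_of_nonneg (by omega)] at h3
    rcases h3 with h3 | h3
    · right
      rintro w ⟨-, -, hw, h4⟩
      rw [if_pos h] at h4
      have h5 := (h2 u hu w hw).1
      have h6 := (h2 v hv w hw).1
      rw [abs_of_nonneg (by omega)] at h5
      rw [abs_of_nonpos (by omega)] at h6
      omega
    · by_cases heq : pos x n u ≤ pos x n v
      · right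
        rintro w ⟨-, -, hw, h4⟩
        rw [if_pos h] at h4
        have h5 := (h2 u hu w hw).1
        have h6 := (h2 v hv w hw).1
        rw [abs_of_nonneg (by omega)] at h5
        rw [abs_of_nonpos (by omega)] at h6
        omega
      left
      rintro w ⟨-, -, hw, h4⟩
      rw [if_neg heq] at h4
      have hw0 := h0 w hw
      have h5 := h2 u hu w hw
      have h6 := h2 v hv w hw
      rcases h4 with h4 | h4
      · rw [abs_of_nonpos (by omega)] at h5 h6
        omega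
      · rw [abs_of_nonneg (by omega)] at h5 h6
        omega

end DP
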