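import Pool.Agent.helper95.DP.SpecH

/-!
# Project dp, module HCE: conditional expectation given the coins in a set of sites
-/

namespace DP

open MeasureTheory

open Classical in
/-- `b` on `S`, `b'` outside. -/
noncomputable def HCE_mix (S : Set V) (b b' : V → Bool) : V → Bool :=
  fun v => if v ∈ S then b v else b' v

/-- Average over the coins outside `S`. -/
noncomputable def HCE_A (S : Set V) (g : (V → Bool) → ℝ) : (V → Bool) → ℝ :=
  fun b => ex1 (fun b' => g (HCE_mix S b b'))

theorem HCE_lf_left {Λ : Finset V} {S : Set V} {g : (V → Bool) → ℝ} (h : LF Λ g) (b' : V → Bool) :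
    LF Λ (fun b => g (HCE_mix S b b')) := by
  intro b₁ b₂ hb
  refine h _ _ fun v hv => ?_
  unfold HCE_mix
  split_ifs
  · exact hb v hv
  · rfl

theorem HCE_lf_right {Λ : Finset V} {S : Set V} {g : (V → Bool) → ℝ} (h : LF Λ g) (b : V → Bool) :
    LF Λ (fun b' => g (HCE_mix S b b')) := by
  intro b₁ b₂ hb
  refine h _ _ fun v hv => ?_
  unfold HCE_mix
  split_ifs
  · rfl
  · exact hb v hv

theorem HCE_lf {Λ : Finset V} {S : Set V} {g : (V → Bool) → ℝ} (h : LF Λ g) :
    LF Λ (HCE_A S g) := by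
  intro b₁ b₂ hb
  unfold HCE_A
  congr 1
  funext b'
  exact HCE_lf_left h b' _ _ hb

theorem HCE_mix_update_mem {S : Set V} {v : V} (hv : v ∈ S) (b b' : V → Bool) (a : Bool) :
    HCE_mix S (Function.update b v a) b' = Function.update (HCE_mix S b b') v a := by
  funext u
  by_cases h : u = v
  · subst h
    simp [HCE_mix, hv]
  · simp [HCE_mix, Function.update_of_ne h]

theorem HCE_mix_update_notMem {S : Set V} {v : V} (hv : v ∉ S) (b b' : V → Bool) (a : Bool) :
    HCE_mix S b (Function.update b' v a) = Function.update (HCE_mix S b b') v a := by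
  funext u
  by_cases h : u = v
  · subst h
    simp [HCE_mix, hv]
  · simp [HCE_mix, Function.update_of_ne h]

theorem HCE_upd {S : Set V} {v : V} (hv : v ∈ S) (g : (V → Bool) → ℝ) (a : Bool) :
    upd (HCE_A S g) v a = HCE_A S (upd g v a) := by
  funext b
  unfold upd HCE_A
  congr 1
  funext b'
  rw [HCE_mix_update_mem hv]

theorem HCE_split {Λ : Finset V} {S : Set V} {v : V} (hv : v ∉ S) {g : (V → Bool) → ℝ}
    (h : LF Λ g) :
    HCE_A S g = fun b => (1 / 2) * (HCE_A S (upd g v true) b + HCE_A S (upd g v false) b) := by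
  funext b
  unfold HCE_A
  rw [ex1_site (HCE_lf_right h b) v]
  have h1 : ∀ a : Bool, (fun b' => g (HCE_mix S b (Function.update b' v a))) =
      fun b' => upd g v a (HCE_mix S b b') := by
    intro a
    funext b'
    rw [HCE_mix_update_notMem hv]
    rfl
  rw [h1, h1]
  ring

theorem HCE_bf_lf_empty {f g : (V → Bool) → ℝ} (ρ : V → ℝ) (hf : LF ∅ f) (hg : LF ∅ g) :
    bf ρ f g = f (fun _ => true) * g (fun _ => true) := by
  unfold bf
  have h2 : (fun w : V → Bool × Bool => f (fun v => (w v).1) * g (fun v => (w v).2)) =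
      fun _ => f (fun _ => true) * g (fun _ => true) := by
    funext w
    rw [hf.empty (fun v => (w v).1) (fun _ => true), hg.empty (fun v => (w v).2) (fun _ => true)]
  rw [h2, ex2_const]

theorem HCE_A_empty {S : Set V} {g : (V → Bool) → ℝ} (h : LF ∅ g) (b : V → Bool) :
    HCE_A S g b = g (fun _ => true) := by
  unfold HCE_A
  have h2 : (fun b' => g (HCE_mix S b b')) = fun _ => g (fun _ => true) := by
    funext b'
    exact h.empty _ _
  rw [h2, ex1_const]

theorem HCE_half {Λ : Finset V} (ρ : V → ℝ) {f f' g g' : (V → Bool) → ℝ} (hf : LF Λ f)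
    (hf' : LF Λ f') (hg : LF Λ g) (hg' : LF Λ g') :
    bf ρ (fun b => (1 / 2) * (f b + f' b)) (fun b => (1 / 2) * (g b + g' b)) =
      (1 / 4) * (bf ρ f g + bf ρ f g' + bf ρ f' g + bf ρ f' g') := by
  have hgg : LF Λ (fun b => g b + g' b) := hg.comp₂ hg' (· + ·)
  rw [bf_mul_left ρ (1 / 2) (fun b => f b + f' b), bf_mul_right ρ (1 / 2) _ (fun b => g b + g' b),
    bf_add_left ρ hf hf' hgg, bf_add_right ρ hf hg hg', bf_add_right ρ hf' hg hg']
  ring

open Classical in
theorem HCE_bf (S : Set V) (ρ : V → ℝ) {Λ : Finset V} {f g : (V → Bool) → ℝ} (hf : LF Λ f)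
    (hg : LF Λ g) :
    bf ρ (HCE_A S f) (HCE_A S g) = bf (fun v => if v ∈ S then ρ v else 1) f g := by
  induction Λ using Finset.induction_on generalizing f g with
  | empty =>
    rw [HCE_bf_lf_empty _ (HCE_lf hf) (HCE_lf hg), HCE_bf_lf_empty _ hf hg, HCE_A_empty hf,
      HCE_A_empty hg]
  | insert v s hv ih =>
    rw [bf_site' _ hf hg v, Fintype.sum_prod_type]
    simp only [Fintype.sum_bool]
    rw [← ih (hf.upd true) (hg.upd true), ← ih (hf.upd true) (hg.upd false),
      ← ih (hf.upd false) (hg.upd true), ← ih (hf.upd false) (hg.upd false)]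
    by_cases h : v ∈ S
    · rw [bf_site' ρ (HCE_lf hf) (HCE_lf hg) v, Fintype.sum_prod_type]
      simp only [Fintype.sum_bool, HCE_upd h, if_pos h]
    · rw [HCE_split h hf, HCE_split h hg, HCE_half ρ (HCE_lf (hf.upd true))
        (HCE_lf (hf.upd false)) (HCE_lf (hg.upd true)) (HCE_lf (hg.upd false))]
      simp only [if_neg h, wt_eq]
      have h1 : clip 1 = 1 := clip_of_mem zero_le_one le_rfl
      rw [h1]
      simp
      ring

theorem HCE_ex1 (S : Set V) {Λ : Finset V} {f : (V → Bool) → ℝ} (hf : LF Λ f) :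
    ex1 (HCE_A S f) = ex1 f := by
  have h1 := HCE_bf S (fun _ => (1 : ℝ)) hf (LF.const (Λ := Λ) (X := Bool) (1 : ℝ))
  have h2 : HCE_A S (fun _ => (1 : ℝ)) = fun _ => 1 := by
    funext b
    unfold HCE_A
    exact ex1_const 1
  rw [h2, bf_one_right _ (HCE_lf hf), bf_one_right _ hf] at h1
  exact h1

theorem HCE : HCE_stmt := by
  classical
  intro Λ F S ρ hF f hf
  have hlf := hF.lf
  have hf' : f = HCE_A S (ind F) := by
    funext b
    rw [hf b]
    rfl
  subst hf'
  refine ⟨HCE_lf hlf, fun b => ex1_nonneg fun b' => ind_nonneg _ _, ?_, ?_, ?_⟩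
  · rw [HCE_ex1 S hlf, Pr_eq hF]
  · rw [HCE_bf S ρ hlf hlf, Q_eq _ hF hF]
  · intro b hb
    by_contra hne
    push Not at hne
    refine absurd hb ?_
    have h2 : HCE_A S (ind F) b = 0 := by
      unfold HCE_A
      have h3 : (fun b' => ind F (HCE_mix S b b')) = fun _ => 0 := by
        funext b'
        refine ind_of_notMem (hne _ fun v hv => ?_)
        simp [HCE_mix, hv]
      rw [h3, ex1_const]
    rw [h2]
    exact lt_irrefl 0

end DP
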